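import Pool.Agent.H798.BV.Stm5

set_option autoImplicit false

/-!
# MP_172a45_an, piece (AG): improved inequality between the arithmetic and the geometric mean
-/

namespace Pool.Agent.H130.BV

open Pool.Agent.H798.BV

theorem ag_log_six : Real.log 6 ≤ 2 := by
  rw [Real.log_le_iff_le_exp (by norm_num)]
  have h1 : (2.7 : ℝ) ≤ Real.exp 1 := by
    have := Real.exp_one_gt_d9
    linarith
  have h2 : Real.exp 2 = Real.exp 1 * Real.exp 1 := by
    rw [← Real.exp_add]
    norm_num
  rw [h2]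
  nlinarith

theorem ag_log_le {y : ℝ} (hy : 6 ≤ y) : Real.log y ≤ y / 2 - 1 := by
  have h1 : Real.log y = Real.log (y / 6) + Real.log 6 := by
    rw [← Real.log_mul (by positivity) (by norm_num)]
    congr 1
    ring
  have h2 := Real.log_le_sub_one_of_pos (show 0 < y / 6 by positivity)
  have h3 := ag_log_six
  rw [h1]
  linarith

theorem t_AG : S_AG := by
  intro m l x c hx hc hsum hprod
  have hpos : 0 < ∏ k, ‖l k‖ := lt_of_lt_of_le hc hprod
  have hne : ∀ k, ‖l k‖ ≠ 0 := fun k => (Finset.prod_ne_zero_iff.1 hpos.ne') k (Finset.mem_univ k)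
  have hk : ∀ k, 0 < ‖l k‖ := fun k => lt_of_le_of_ne (norm_nonneg _) (Ne.symm (hne k))
  have h1 : Real.log c ≤ ∑ k, Real.log ‖l k‖ := by
    rw [← Real.log_prod (fun k _ => hne k)]
    exact Real.log_le_log hc hprod
  have h2 : ∑ k, Real.log ‖l k‖ ≤ ∑ k, ((‖l k‖ - 1) - if x < ‖l k‖ then ‖l k‖ / 2 else 0) := by
    refine Finset.sum_le_sum fun k _ => ?_
    split_ifs with h
    · have := ag_log_le (y := ‖l k‖) (by linarith)
      linarith
    · have := Real.log_le_sub_one_of_pos (hk k)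
      linarith
  have h3 : ∑ k, ((‖l k‖ - 1) - if x < ‖l k‖ then ‖l k‖ / 2 else 0) =
      (∑ k, ‖l k‖) - m - (∑ k ∈ Finset.univ.filter (fun k => x < ‖l k‖), ‖l k‖) / 2 := by
    rw [Finset.sum_sub_distrib, Finset.sum_sub_distrib, Finset.sum_const, Finset.card_univ,
      Fintype.card_fin, nsmul_eq_mul, mul_one, ← Finset.sum_filter, Finset.sum_div]
  rw [h3] at h2
  rw [one_div, Real.log_inv]
  linarith

end Pool.Agent.H130.BV
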